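import Pool.Agent.H329R3.PM.Stmts

open MeasureTheory Set Filter Topology

namespace Pool.Agent.H555R3.PMOuter

open Pool.Agent.H329R3.PM

lemma int_aux : IntegrableOn (fun y : ℝ => (1 - y) ^ (-(1/2) : ℝ)) (Ioc (0 : ℝ) 1) := by
  have h := intervalIntegral.intervalIntegrable_rpow' (a := 0) (b := 1)
    (show (-1 : ℝ) < -(1/2) by norm_num)
  have h2 := h.comp_sub_left 1
  simp only [sub_zero, sub_self] at h2
  have h3 := h2.symm
  rwa [intervalIntegrable_iff_integrableOn_Ioc_of_le zero_le_one] at h3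

lemma kap_bound {r y : ℝ} (hr : 1 ≤ r) (h0 : 0 < y) (h1 : y < 1) :
    |kap r y| ≤ r * (5 + (1 - y) ^ (-(1/2) : ℝ)) := by
  have hry : 0 < r - y := by linarith
  have hsg : sg (r - y) = 1 / √(r - y) := by
    unfold sg
    rw [abs_of_pos hry]
    have := Real.sqrt_pos.2 hry
    field_simp
  have hrp : (1 - y) ^ (-(1/2) : ℝ) = 1 / √(1 - y) := by
    rw [Real.rpow_neg (by linarith), Real.sqrt_eq_rpow, one_div, one_div]
  have a1 : √(r + y) ≤ 2 * r := by
    rw [Real.sqrt_le_left (by linarith)]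
    nlinarith
  have a2 : √|r - y| ≤ 2 * r := by
    rw [abs_of_pos hry, Real.sqrt_le_left (by linarith)]
    nlinarith
  have a3 : 1 / √(r + y) ≤ 1 := by
    have : 1 ≤ √(r + y) := by
      rw [Real.one_le_sqrt]; linarith
    rw [div_le_one (by linarith)]; exact this
  have a4 : 1 / √(r - y) ≤ 1 / √(1 - y) := by
    apply one_div_le_one_div_of_le (Real.sqrt_pos.2 (by linarith))
    exact Real.sqrt_le_sqrt (by linarith)
  have b1 := Real.sqrt_nonneg (r + y)
  have b2 := Real.sqrt_nonneg |r - y|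
  have b3 : 0 ≤ 1 / √(r + y) := by positivity
  have b4 : 0 ≤ 1 / √(r - y) := by positivity
  unfold kap
  rw [hsg, hrp]
  have c1 : r / 2 * (1 / √(r + y)) ≤ r / 2 * 1 := mul_le_mul_of_nonneg_left a3 (by linarith)
  have c2 : r / 2 * (1 / √(r - y)) ≤ r / 2 * (1 / √(1 - y)) :=
    mul_le_mul_of_nonneg_left a4 (by linarith)
  have c3 : 0 ≤ r / 2 * (1 / √(r + y)) := by positivity
  have c4 : 0 ≤ r / 2 * (1 / √(r - y)) := by positivity
  rw [abs_le]
  constructor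
  · nlinarith
  · nlinarith

theorem taskOuter : TaskOuter := by
  intro w hw
  obtain ⟨B, hB⟩ := hw.bdd
  have hB0 : 0 ≤ B := le_trans (hw.nonneg 0) (hB 0)
  refine ⟨∫ y in Ioc (0 : ℝ) 1, B * (5 + (1 - y) ^ (-(1/2) : ℝ)), fun r hr => ?_⟩
  have hr0 : 0 < r := by linarith
  have hgi : IntegrableOn (fun y : ℝ => B * (5 + (1 - y) ^ (-(1/2) : ℝ)) / r) (Ioc (0 : ℝ) 1) := by
    refine Integrable.div_const (Integrable.const_mul ?_ B) r
    exact (integrableOn_const (by simp)).add int_aux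
  have hne : ∀ᵐ y : ℝ ∂(volume.restrict (Ioc (0 : ℝ) 1)), y ≠ 1 := by
    refine ae_restrict_of_ae ?_
    rw [ae_iff]
    simp
  have hbd : ∀ᵐ y : ℝ ∂(volume.restrict (Ioc (0 : ℝ) 1)),
      ‖kk r y * w y‖ ≤ B * (5 + (1 - y) ^ (-(1/2) : ℝ)) / r := by
    filter_upwards [hne, ae_restrict_mem measurableSet_Ioc] with y hy1 hy
    have hlt : y < 1 := lt_of_le_of_ne hy.2 hy1
    have hk := kap_bound hr hy.1 hlt
    have hp : 0 ≤ (1 - y) ^ (-(1/2) : ℝ) := Real.rpow_nonneg (by linarith) _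
    unfold kk
    rw [Real.norm_eq_abs, abs_mul, abs_div, abs_mul, abs_of_pos hy.1, abs_of_nonneg (hw.nonneg y),
      abs_of_pos (by positivity : 0 < r ^ 3)]
    have h1 : y * |kap r y| / r ^ 3 ≤ (5 + (1 - y) ^ (-(1/2) : ℝ)) / r := by
      rw [div_le_div_iff₀ (by positivity) hr0]
      have h2 : y * |kap r y| ≤ 1 * (r * (5 + (1 - y) ^ (-(1/2) : ℝ))) :=
        mul_le_mul hlt.le hk (abs_nonneg _) zero_le_one
      have h3 : r ≤ r ^ 2 := by nlinarith
      have h5 : 0 ≤ 5 + (1 - y) ^ (-(1/2) : ℝ) := by linarith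
      calc y * |kap r y| * r ≤ 1 * (r * (5 + (1 - y) ^ (-(1/2) : ℝ))) * r := by gcongr
        _ = (5 + (1 - y) ^ (-(1/2) : ℝ)) * (r ^ 2 * 1) := by ring
        _ ≤ (5 + (1 - y) ^ (-(1/2) : ℝ)) * (r ^ 2 * r) := by gcongr
        _ = _ := by ring
    calc y * |kap r y| / r ^ 3 * w y ≤ (5 + (1 - y) ^ (-(1/2) : ℝ)) / r * B :=
          mul_le_mul h1 (hB y) (hw.nonneg y) (by positivity)
      _ = _ := by ring
  have hmain := norm_integral_le_of_norm_le hgi hbd
  rw [integral_div, Real.norm_eq_abs] at hmain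
  have : |Sop kk w r| ≤ (∫ y in Ioc (0 : ℝ) 1, B * (5 + (1 - y) ^ (-(1/2) : ℝ))) / r := hmain
  rwa [le_div_iff₀ hr0] at this

end Pool.Agent.H555R3.PMOuter
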