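import Mathlib

set_option autoImplicit false

/-! Poly-line upward planar grid drawings of bipartite DAGs, and the area function `Ap`. -/

namespace H555R3

open Set

/-- A bipartite DAG on the vertex set `Fin n`: every vertex lies on side `V₁` (`side v = false`)
or on side `V₂` (`side v = true`), and every edge is directed from a vertex of `V₁` to a vertex
of `V₂`. -/
structure BipDAG (n : ℕ) where
  /-- the side of a vertex -/
  side : Fin n → Bool
  /-- `E u v`: there is an edge directed from `u` to `v` -/
  E : Fin n → Fin n → Prop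
  edge_side : ∀ u v, E u v → side u = false ∧ side v = true

/-- A grid point as a point of the plane `ℝ² = ℂ`. -/
def pt (p : ℤ × ℤ) : ℂ := ⟨(p.1 : ℝ), (p.2 : ℝ)⟩

/-- The polygonal chain through the grid points of a list. -/
def chainCurve : List (ℤ × ℤ) → Set ℂ
  | [] => ∅
  | [p] => {pt p}
  | p :: q :: l => segment ℝ (pt p) (pt q) ∪ chainCurve (q :: l)

/-- A poly-line upward planar grid drawing of a bipartite DAG. -/
structure PolyDrawing {n : ℕ} (G : BipDAG n) where
  /-- the positions of the vertices, grid points -/
  pos : Fin n → ℤ × ℤ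
  /-- the bends of the edge `u → v`, in the order from `u` to `v`, grid points -/
  bends : Fin n → Fin n → List (ℤ × ℤ)
  /-- distinct vertices lie at distinct points -/
  pos_inj : Function.Injective pos
  /-- the `y`-coordinate strictly increases along every edge -/
  up : ∀ u v, G.E u v → (pos u :: (bends u v ++ [pos v])).Pairwise (fun p q => p.2 < q.2)
  /-- two distinct edges meet only at a common endpoint -/
  noncross : ∀ u v u' v', G.E u v → G.E u' v' → (u, v) ≠ (u', v') →
    ∀ z, z ∈ chainCurve (pos u :: (bends u v ++ [pos v])) →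
      z ∈ chainCurve (pos u' :: (bends u' v' ++ [pos v'])) →
      ∃ x, (x = u ∨ x = v) ∧ (x = u' ∨ x = v') ∧ z = pt (pos x)
  /-- an edge does not pass through a vertex other than its endpoints -/
  vertex_off : ∀ u v x, G.E u v → x ≠ u → x ≠ v →
    pt (pos x) ∉ chainCurve (pos u :: (bends u v ++ [pos v]))

/-- The drawing is contained in an axis-parallel rectangle of width `W` and height `H` (with
corners at grid points): all vertices and all bends lie in it. -/
def PolyDrawing.FitsIn {n : ℕ} {G : BipDAG n} (D : PolyDrawing G) (W H : ℕ) : Prop :=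
  ∃ a b : ℤ, (∀ v, a ≤ (D.pos v).1 ∧ (D.pos v).1 ≤ a + W ∧ b ≤ (D.pos v).2 ∧
      (D.pos v).2 ≤ b + H) ∧
    ∀ u v, G.E u v → ∀ p ∈ D.bends u v, a ≤ p.1 ∧ p.1 ≤ a + W ∧ b ≤ p.2 ∧ p.2 ≤ b + H

/-- The minimum area of a poly-line upward planar grid drawing of `G`. -/
noncomputable def minArea {n : ℕ} (G : BipDAG n) : ℕ :=
  sInf {A : ℕ | ∃ (D : PolyDrawing G) (W H : ℕ), D.FitsIn W H ∧ A = W * H}

/-- `A_p(n)`: the maximum, over all bipartite DAGs on `n` vertices that have a poly-line upward
planar grid drawing, of the minimum area of such a drawing. -/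
noncomputable def Ap (n : ℕ) : ℕ :=
  sSup {A : ℕ | ∃ G : BipDAG n, Nonempty (PolyDrawing G) ∧ A = minArea G}

/-! ### Basic facts on chains -/

theorem pt_mem_chainCurve {p : ℤ × ℤ} : ∀ {l : List (ℤ × ℤ)}, p ∈ l → pt p ∈ chainCurve l
  | [], h => by simp at h
  | [q], h => by
    rw [List.mem_singleton] at h
    subst h
    simp [chainCurve]
  | q :: r :: l, h => by
    rw [List.mem_cons] at h
    rcases h with rfl | h
    · exact Or.inl (left_mem_segment ℝ _ _)
    · exact Or.inr (pt_mem_chainCurve h)

theorem chainCurve_isPathConnected : ∀ {l : List (ℤ × ℤ)}, l ≠ [] →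
    IsPathConnected (chainCurve l)
  | [], h => absurd rfl h
  | [q], _ => by
    simp only [chainCurve]
    exact isPathConnected_singleton _
  | q :: r :: l, _ => by
    have h1 : IsPathConnected (segment ℝ (pt q) (pt r)) :=
      (convex_segment _ _).isPathConnected ⟨_, left_mem_segment ℝ _ _⟩
    have h2 : IsPathConnected (chainCurve (r :: l)) :=
      chainCurve_isPathConnected (List.cons_ne_nil _ _)
    exact h1.union h2 ⟨pt r, right_mem_segment ℝ _ _, pt_mem_chainCurve (by simp)⟩

theorem chainCurve_subset {S : Set ℂ} (hS : Convex ℝ S) : ∀ {l : List (ℤ × ℤ)},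
    (∀ p ∈ l, pt p ∈ S) → chainCurve l ⊆ S
  | [], _ => by simp [chainCurve]
  | [q], h => by
    simp only [chainCurve, Set.singleton_subset_iff]
    exact h q (by simp)
  | q :: r :: l, h => by
    refine Set.union_subset ?_ (chainCurve_subset hS (fun p hp => h p (by simp [hp])))
    exact hS.segment_subset (h q (by simp)) (h r (by simp))

end H555R3
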