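import Mathlib
import Pool.Agent.H555R3.UPDefs

set_option autoImplicit false

/-! Nested closed curves through grid points need a large box. -/

namespace H555R3

open Set

theorem joined_half_re_lt {l : ℝ} {x y : ℂ} (hx : x.re < l) (hy : y.re < l) :
    JoinedIn {z : ℂ | z.re < l} x y :=
  ((convex_halfSpace_re_lt l).isPathConnected ⟨x, hx⟩).joinedIn _ hx _ hy

theorem joined_half_re_gt {l : ℝ} {x y : ℂ} (hx : l < x.re) (hy : l < y.re) :
    JoinedIn {z : ℂ | l < z.re} x y :=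
  ((convex_halfSpace_re_gt l).isPathConnected ⟨x, hx⟩).joinedIn _ hx _ hy

theorem joined_half_im_lt {l : ℝ} {x y : ℂ} (hx : x.im < l) (hy : y.im < l) :
    JoinedIn {z : ℂ | z.im < l} x y :=
  ((convex_halfSpace_im_lt l).isPathConnected ⟨x, hx⟩).joinedIn _ hx _ hy

theorem joined_half_im_gt {l : ℝ} {x y : ℂ} (hx : l < x.im) (hy : l < y.im) :
    JoinedIn {z : ℂ | l < z.im} x y :=
  ((convex_halfSpace_im_gt l).isPathConnected ⟨x, hx⟩).joinedIn _ hx _ hy

/-- `C` lies in the box `[l,r] × [d,u]`. -/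
structure InBox (C : Set ℂ) (l r d u : ℝ) : Prop where
  hl : ∀ z ∈ C, l ≤ z.re
  hr : ∀ z ∈ C, z.re ≤ r
  hd : ∀ z ∈ C, d ≤ z.im
  hu : ∀ z ∈ C, z.im ≤ u

theorem InBox.re_lt {C : Set ℂ} {l r d u : ℝ} (h : InBox C l r d u) :
    {z : ℂ | z.re < l} ⊆ Cᶜ := fun z hz hC => absurd (h.hl z hC) (not_le.mpr hz)
theorem InBox.re_gt {C : Set ℂ} {l r d u : ℝ} (h : InBox C l r d u) :
    {z : ℂ | r < z.re} ⊆ Cᶜ := fun z hz hC => absurd (h.hr z hC) (not_le.mpr hz)
theorem InBox.im_lt {C : Set ℂ} {l r d u : ℝ} (h : InBox C l r d u) :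
    {z : ℂ | z.im < d} ⊆ Cᶜ := fun z hz hC => absurd (h.hd z hC) (not_le.mpr hz)
theorem InBox.im_gt {C : Set ℂ} {l r d u : ℝ} (h : InBox C l r d u) :
    {z : ℂ | u < z.im} ⊆ Cᶜ := fun z hz hC => absurd (h.hu z hC) (not_le.mpr hz)

/-- the far point -/
def far (l d : ℝ) : ℂ := ⟨l - 1, d - 1⟩

theorem out_left {C : Set ℂ} {l r d u : ℝ} (h : InBox C l r d u) {z : ℂ} (hz : z.re < l) :
    JoinedIn Cᶜ z (far l d) :=
  (joined_half_re_lt hz (by simp [far])).mono h.re_lt

theorem out_down {C : Set ℂ} {l r d u : ℝ} (h : InBox C l r d u) {z : ℂ} (hz : z.im < d) :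
    JoinedIn Cᶜ z (far l d) :=
  (joined_half_im_lt hz (by simp [far])).mono h.im_lt

theorem out_right {C : Set ℂ} {l r d u : ℝ} (h : InBox C l r d u) {z : ℂ} (hz : r < z.re) :
    JoinedIn Cᶜ z (far l d) :=
  ((joined_half_re_gt (y := (⟨r + 1, d - 1⟩ : ℂ)) hz (by simp)).mono h.re_gt).trans
    (out_down h (by simp))

theorem out_up {C : Set ℂ} {l r d u : ℝ} (h : InBox C l r d u) {z : ℂ} (hz : u < z.im) :
    JoinedIn Cᶜ z (far l d) :=
  ((joined_half_im_gt (y := (⟨l - 1, u + 1⟩ : ℂ)) hz (by simp)).mono h.im_gt).trans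
    (out_left h (by simp))

theorem joined_seg {C : Set ℂ} {z w : ℂ} (h : segment ℝ z w ⊆ Cᶜ) : JoinedIn Cᶜ z w :=
  (((convex_segment z w).isPathConnected ⟨_, left_mem_segment ℝ z w⟩).joinedIn _
    (left_mem_segment ℝ z w) _ (right_mem_segment ℝ z w)).mono h

theorem esc_left {C : Set ℂ} {l r d u : ℝ} (h : InBox C l r d u) {z : ℂ} (hzC : z ∉ C)
    (hz : z.re ≤ l) : JoinedIn Cᶜ z (far l d) := by
  have h1 : JoinedIn Cᶜ z (⟨l - 1, z.im⟩ : ℂ) := by
    apply joined_seg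
    rintro y hy hC
    obtain ⟨s, t, hs, ht, hst, rfl⟩ := hy
    have := h.hl _ hC
    simp only [Complex.add_re, Complex.smul_re, smul_eq_mul] at this
    have hs1 : s = 1 - t := by linarith
    subst hs1
    have ht0 : t = 0 := by
      by_contra hne
      have htp : 0 < t := lt_of_le_of_ne ht (Ne.symm hne)
      have : (1 - t) * z.re ≤ (1 - t) * l := mul_le_mul_of_nonneg_left hz hs
      nlinarith
    subst ht0
    apply hzC
    simpa using hC
  exact h1.trans (out_left h (by simp))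

theorem esc_right {C : Set ℂ} {l r d u : ℝ} (h : InBox C l r d u) {z : ℂ} (hzC : z ∉ C)
    (hz : r ≤ z.re) : JoinedIn Cᶜ z (far l d) := by
  have h1 : JoinedIn Cᶜ z (⟨r + 1, z.im⟩ : ℂ) := by
    apply joined_seg
    rintro y hy hC
    obtain ⟨s, t, hs, ht, hst, rfl⟩ := hy
    have := h.hr _ hC
    simp only [Complex.add_re, Complex.smul_re, smul_eq_mul] at this
    have hs1 : s = 1 - t := by linarith
    subst hs1
    have ht0 : t = 0 := by
      by_contra hne
      have htp : 0 < t := lt_of_le_of_ne ht (Ne.symm hne)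
      have : (1 - t) * r ≤ (1 - t) * z.re := mul_le_mul_of_nonneg_left hz hs
      nlinarith
    subst ht0
    apply hzC
    simpa using hC
  exact h1.trans (out_right h (by simp))

theorem esc_down {C : Set ℂ} {l r d u : ℝ} (h : InBox C l r d u) {z : ℂ} (hzC : z ∉ C)
    (hz : z.im ≤ d) : JoinedIn Cᶜ z (far l d) := by
  have h1 : JoinedIn Cᶜ z (⟨z.re, d - 1⟩ : ℂ) := by
    apply joined_seg
    rintro y hy hC
    obtain ⟨s, t, hs, ht, hst, rfl⟩ := hy
    have := h.hd _ hC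
    simp only [Complex.add_im, Complex.smul_im, smul_eq_mul] at this
    have hs1 : s = 1 - t := by linarith
    subst hs1
    have ht0 : t = 0 := by
      by_contra hne
      have htp : 0 < t := lt_of_le_of_ne ht (Ne.symm hne)
      have : (1 - t) * z.im ≤ (1 - t) * d := mul_le_mul_of_nonneg_left hz hs
      nlinarith
    subst ht0
    apply hzC
    simpa using hC
  exact h1.trans (out_down h (by simp))

theorem esc_up {C : Set ℂ} {l r d u : ℝ} (h : InBox C l r d u) {z : ℂ} (hzC : z ∉ C)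
    (hz : u ≤ z.im) : JoinedIn Cᶜ z (far l d) := by
  have h1 : JoinedIn Cᶜ z (⟨z.re, u + 1⟩ : ℂ) := by
    apply joined_seg
    rintro y hy hC
    obtain ⟨s, t, hs, ht, hst, rfl⟩ := hy
    have := h.hu _ hC
    simp only [Complex.add_im, Complex.smul_im, smul_eq_mul] at this
    have hs1 : s = 1 - t := by linarith
    subst hs1
    have ht0 : t = 0 := by
      by_contra hne
      have htp : 0 < t := lt_of_le_of_ne ht (Ne.symm hne)
      have : (1 - t) * u ≤ (1 - t) * z.im := mul_le_mul_of_nonneg_left hz hs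
      nlinarith
    subst ht0
    apply hzC
    simpa using hC
  exact h1.trans (out_up h (by simp))

/-- exact bounding box of a set of grid points -/
structure IsBox (Pts : Set (ℤ × ℤ)) (l r d u : ℤ) : Prop where
  l1 : ∀ p ∈ Pts, l ≤ p.1
  r1 : ∀ p ∈ Pts, p.1 ≤ r
  d1 : ∀ p ∈ Pts, d ≤ p.2
  u1 : ∀ p ∈ Pts, p.2 ≤ u
  l2 : ∃ p ∈ Pts, p.1 = l
  r2 : ∃ p ∈ Pts, p.1 = r
  d2 : ∃ p ∈ Pts, p.2 = d
  u2 : ∃ p ∈ Pts, p.2 = u

theorem exists_isBox {Pts : Set (ℤ × ℤ)} (hf : Pts.Finite) (hn : Pts.Nonempty) :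
    ∃ l r d u, IsBox Pts l r d u := by
  obtain ⟨p1, h1, m1⟩ := Set.exists_min_image Pts (fun p => p.1) hf hn
  obtain ⟨p2, h2, m2⟩ := Set.exists_max_image Pts (fun p => p.1) hf hn
  obtain ⟨p3, h3, m3⟩ := Set.exists_min_image Pts (fun p => p.2) hf hn
  obtain ⟨p4, h4, m4⟩ := Set.exists_max_image Pts (fun p => p.2) hf hn
  exact ⟨p1.1, p2.1, p3.2, p4.2, m1, m2, m3, m4, ⟨p1, h1, rfl⟩, ⟨p2, h2, rfl⟩, ⟨p3, h3, rfl⟩,
    ⟨p4, h4, rfl⟩⟩

theorem nested_bound (K : ℕ) (Pts : ℕ → Set (ℤ × ℤ)) (C : ℕ → Set ℂ)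
    (hfin : ∀ i < K, (Pts i).Finite) (hne : ∀ i < K, (Pts i).Nonempty)
    (hmem : ∀ i < K, ∀ p ∈ Pts i, pt p ∈ C i)
    (hconv : ∀ i < K, ∀ S : Set ℂ, Convex ℝ S → (∀ p ∈ Pts i, pt p ∈ S) → C i ⊆ S)
    (hdisj : ∀ i, i + 1 < K → Disjoint (C i) (C (i + 1)))
    (h3 : ∀ i, i + 2 < K → ∀ x ∈ C i, ∀ y ∈ C (i + 2), ¬ JoinedIn (C (i + 1))ᶜ x y)
    (hK : 3 ≤ K) (a b : ℤ) (W H : ℕ)
    (hbox : ∀ i < K, ∀ p ∈ Pts i, a ≤ p.1 ∧ p.1 ≤ a + W ∧ b ≤ p.2 ∧ p.2 ≤ b + H) :
    K - 2 ≤ W ∧ K - 2 ≤ H := by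
  have hex : ∀ i, ∃ l r d u : ℤ, i < K → IsBox (Pts i) l r d u := by
    intro i
    by_cases hi : i < K
    · obtain ⟨l, r, d, u, h⟩ := exists_isBox (hfin i hi) (hne i hi)
      exact ⟨l, r, d, u, fun _ => h⟩
    · exact ⟨0, 0, 0, 0, fun h => absurd h hi⟩
  choose l r d u hB using hex
  have hIn : ∀ i < K, InBox (C i) (l i) (r i) (d i) (u i) := by
    intro i hi
    have B := hB i hi
    constructor
    · have := hconv i hi {z : ℂ | (l i : ℝ) ≤ z.re} (convex_halfSpace_re_ge _)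
        (fun p hp => by simpa [pt] using B.l1 p hp)
      exact fun z hz => this hz
    · have := hconv i hi {z : ℂ | z.re ≤ (r i : ℝ)} (convex_halfSpace_re_le _)
        (fun p hp => by simpa [pt] using B.r1 p hp)
      exact fun z hz => this hz
    · have := hconv i hi {z : ℂ | (d i : ℝ) ≤ z.im} (convex_halfSpace_im_ge _)
        (fun p hp => by simpa [pt] using B.d1 p hp)
      exact fun z hz => this hz
    · have := hconv i hi {z : ℂ | z.im ≤ (u i : ℝ)} (convex_halfSpace_im_le _)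
        (fun p hp => by simpa [pt] using B.u1 p hp)
      exact fun z hz => this hz
  -- strict nesting relation
  let N : ℕ → ℕ → Prop := fun i j => l j < l i ∧ r i < r j ∧ d j < d i ∧ u i < u j
  have hesc : ∀ i j, i < K → j < K → Disjoint (C i) (C j) →
      (∀ x ∈ C i, ¬ JoinedIn (C j)ᶜ x (far (l j) (d j))) → N i j := by
    intro i j hi hj hd hno
    have B := hB i hi
    have I := hIn j hj
    have hnot : ∀ p ∈ Pts i, pt p ∉ C j := fun p hp hC =>
      Set.disjoint_left.mp hd (hmem i hi p hp) hC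
    refine ⟨?_, ?_, ?_, ?_⟩
    · obtain ⟨p, hp, hpe⟩ := B.l2
      by_contra hlt
      exact hno _ (hmem i hi p hp) (esc_left I (hnot p hp) (by
        simp only [pt]; rw [hpe]; exact_mod_cast not_lt.mp hlt))
    · obtain ⟨p, hp, hpe⟩ := B.r2
      by_contra hlt
      exact hno _ (hmem i hi p hp) (esc_right I (hnot p hp) (by
        simp only [pt]; rw [hpe]; exact_mod_cast not_lt.mp hlt))
    · obtain ⟨p, hp, hpe⟩ := B.d2
      by_contra hlt
      exact hno _ (hmem i hi p hp) (esc_down I (hnot p hp) (by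
        simp only [pt]; rw [hpe]; exact_mod_cast not_lt.mp hlt))
    · obtain ⟨p, hp, hpe⟩ := B.u2
      by_contra hlt
      exact hno _ (hmem i hi p hp) (esc_up I (hnot p hp) (by
        simp only [pt]; rw [hpe]; exact_mod_cast not_lt.mp hlt))
  have hstep : ∀ i, i + 2 < K → N i (i + 1) ∨ N (i + 2) (i + 1) := by
    intro i hi
    by_contra hcon
    rw [not_or] at hcon
    obtain ⟨c1, c2⟩ := hcon
    have e1 : ∃ x ∈ C i, JoinedIn (C (i + 1))ᶜ x (far (l (i + 1)) (d (i + 1))) := by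
      by_contra hno
      push Not at hno
      exact c1 (hesc i (i + 1) (by omega) (by omega) (hdisj i (by omega)) hno)
    have e2 : ∃ y ∈ C (i + 2), JoinedIn (C (i + 1))ᶜ y (far (l (i + 1)) (d (i + 1))) := by
      by_contra hno
      push Not at hno
      exact c2 (hesc (i + 2) (i + 1) (by omega) (by omega) (hdisj (i + 1) (by omega)).symm hno)
    obtain ⟨x, hx, jx⟩ := e1
    obtain ⟨y, hy, jy⟩ := e2
    exact h3 i hi x hx y hy (jx.trans jy.symm)
  have hpos : ∀ i < K, l i ≤ r i ∧ d i ≤ u i := by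
    intro i hi
    have B := hB i hi
    obtain ⟨p, hp, hpe⟩ := B.l2
    obtain ⟨q, hq, hqe⟩ := B.d2
    exact ⟨hpe ▸ B.r1 p hp, hqe ▸ B.u1 q hq⟩
  have hleft : ∀ i, i + 2 < K → N i (i + 1) →
      2 * ((i : ℤ) + 1) ≤ r (i + 1) - l (i + 1) ∧ 2 * ((i : ℤ) + 1) ≤ u (i + 1) - d (i + 1) := by
    intro i
    induction i with
    | zero =>
      intro hi hN
      have := hpos 0 (by omega)
      obtain ⟨n1, n2, n3, n4⟩ := hN
      simp only [zero_add, Nat.cast_zero, mul_one] at *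
      omega
    | succ i ih =>
      intro hi hN
      obtain ⟨n1, n2, n3, n4⟩ := hN
      rcases hstep i (by omega) with h | h
      · have := ih (by omega) h
        push_cast at *
        omega
      · obtain ⟨m1, m2, m3, m4⟩ := h
        rw [show i + 1 + 1 = i + 2 from rfl] at *
        omega
  have hright : ∀ m i, i + 2 < K → i + 2 + m = K - 1 → N (i + 2) (i + 1) →
      2 * ((m : ℤ) + 1) ≤ r (i + 1) - l (i + 1) ∧ 2 * ((m : ℤ) + 1) ≤ u (i + 1) - d (i + 1) := by
    intro m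
    induction m with
    | zero =>
      intro i hi hm hN
      have := hpos (i + 2) (by omega)
      obtain ⟨n1, n2, n3, n4⟩ := hN
      push_cast
      omega
    | succ m ih =>
      intro i hi hm hN
      obtain ⟨n1, n2, n3, n4⟩ := hN
      rcases hstep (i + 1) (by omega) with h | h
      · obtain ⟨m1, m2, m3, m4⟩ := h
        have e1 : i + 1 + 1 = i + 2 := by ring
        rw [e1] at m1 m2 m3 m4
        omega
      · have := ih (i + 1) (by omega) (by omega) h
        have e1 : i + 1 + 1 = i + 2 := by ring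
        rw [e1] at this
        push_cast at *
        omega
  -- the middle layer
  have hfinal : ∀ j < K, ∀ x : ℤ, x ≤ r j - l j → x ≤ u j - d j → x ≤ W ∧ x ≤ H := by
    intro j hj x h1 h2
    have B := hB j hj
    obtain ⟨p, hp, hpe⟩ := B.l2
    obtain ⟨p', hp', hpe'⟩ := B.r2
    obtain ⟨q, hq, hqe⟩ := B.d2
    obtain ⟨q', hq', hqe'⟩ := B.u2
    have b1 := hbox j hj p hp
    have b2 := hbox j hj p' hp'
    have b3 := hbox j hj q hq
    have b4 := hbox j hj q' hq'
    omega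
  obtain ⟨i, hi⟩ : ∃ i, i = (K - 1) / 2 - 1 := ⟨_, rfl⟩
  rcases hstep i (by omega) with h | h
  · have h1 := hleft i (by omega) h
    have h2 := hfinal (i + 1) (by omega) _ h1.1 h1.2
    omega
  · have h1 := hright (K - 1 - (i + 2)) i (by omega) (by omega) h
    have h2 := hfinal (i + 1) (by omega) _ h1.1 h1.2
    omega

end H555R3
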