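import Mathlib
import Pool.Agent.Helper479.Bond.VK

set_option autoImplicit false

/-! Three consecutive layers of the nested graph: the outer layers cannot be joined in the
complement of the middle cycle (K5 minor, van Kampen obstruction). -/

namespace H555R3

open Set

/-- Adjacency of the three-layer graph. Sources `0,1 | 2,3 | 4,5` are `a,b` of the three layers,
sinks `0,1 | 2,3 | 4,5` are `w,z` of the three layers. -/
def E3 (x y : Fin 6) : Bool :=
  (x.val / 2 == y.val / 2) || ((x.val, y.val) == (0, 2)) || ((x.val, y.val) == (3, 0)) ||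
  ((x.val, y.val) == (1, 3)) || ((x.val, y.val) == (2, 4)) || ((x.val, y.val) == (5, 2)) ||
  ((x.val, y.val) == (3, 5))

theorem three_layers (Γ : Fin 6 → Fin 6 → Set ℂ) (P Q : Fin 6 → ℂ)
    (hpc : ∀ x y, E3 x y = true → IsPathConnected (Γ x y))
    (hP : ∀ x y, E3 x y = true → P x ∈ Γ x y)
    (hQ : ∀ x y, E3 x y = true → Q y ∈ Γ x y)
    (hd : ∀ x y x' y', E3 x y = true → E3 x' y' = true → x ≠ x' → y ≠ y' →
      Disjoint (Γ x y) (Γ x' y'))
    (hJ : JoinedIn ((Γ 2 2 ∪ Γ 3 2) ∪ (Γ 2 3 ∪ Γ 3 3))ᶜ (P 0) (P 4)) : False := by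
  -- path connected pieces
  have hc' : IsPathConnected ((Γ 0 0 ∪ Γ 1 0) ∪ (Γ 0 1 ∪ Γ 1 1)) := by
    refine IsPathConnected.union ?_ ?_ ⟨P 0, ?_, ?_⟩
    · exact (hpc 0 0 (by decide)).union (hpc 1 0 (by decide))
        ⟨Q 0, hQ 0 0 (by decide), hQ 1 0 (by decide)⟩
    · exact (hpc 0 1 (by decide)).union (hpc 1 1 (by decide))
        ⟨Q 1, hQ 0 1 (by decide), hQ 1 1 (by decide)⟩
    · exact Or.inl (hP 0 0 (by decide))
    · exact Or.inl (hP 0 1 (by decide))
  have hc'' : IsPathConnected ((Γ 4 4 ∪ Γ 5 4) ∪ (Γ 4 5 ∪ Γ 5 5)) := by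
    refine IsPathConnected.union ?_ ?_ ⟨P 4, ?_, ?_⟩
    · exact (hpc 4 4 (by decide)).union (hpc 5 4 (by decide))
        ⟨Q 4, hQ 4 4 (by decide), hQ 5 4 (by decide)⟩
    · exact (hpc 4 5 (by decide)).union (hpc 5 5 (by decide))
        ⟨Q 5, hQ 4 5 (by decide), hQ 5 5 (by decide)⟩
    · exact Or.inl (hP 4 4 (by decide))
    · exact Or.inl (hP 4 5 (by decide))
  set C' : Set ℂ := (Γ 0 0 ∪ Γ 1 0) ∪ (Γ 0 1 ∪ Γ 1 1) with hC'
  set C'' : Set ℂ := (Γ 4 4 ∪ Γ 5 4) ∪ (Γ 4 5 ∪ Γ 5 5) with hC''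
  set C : Set ℂ := (Γ 2 2 ∪ Γ 3 2) ∪ (Γ 2 3 ∪ Γ 3 3) with hC
  have P0' : P 0 ∈ C' := Or.inl (Or.inl (hP 0 0 (by decide)))
  have P1' : P 1 ∈ C' := Or.inl (Or.inr (hP 1 0 (by decide)))
  have Q0' : Q 0 ∈ C' := Or.inl (Or.inl (hQ 0 0 (by decide)))
  have P4' : P 4 ∈ C'' := Or.inl (Or.inl (hP 4 4 (by decide)))
  have P5' : P 5 ∈ C'' := Or.inl (Or.inr (hP 5 4 (by decide)))
  have Q4' : Q 4 ∈ C'' := Or.inl (Or.inl (hQ 4 4 (by decide)))
  have Q5' : Q 5 ∈ C'' := Or.inr (Or.inl (hQ 4 5 (by decide)))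
  let p : Fin 5 → ℂ := ![Q 2, P 3, P 2, P 0, P 4]
  let S : Fin 5 → Fin 5 → Set ℂ :=
    ![![∅, Γ 3 2, Γ 2 2, Γ 0 2 ∪ C', Γ 5 2 ∪ C''],
      ![∅, ∅, Γ 3 3 ∪ Γ 2 3, Γ 3 0 ∪ C', Γ 3 5 ∪ C''],
      ![∅, ∅, ∅, (Γ 2 3 ∪ Γ 1 3) ∪ C', Γ 2 4 ∪ C''],
      ![∅, ∅, ∅, ∅, Cᶜ],
      ![∅, ∅, ∅, ∅, ∅]]
  -- the ten joins
  have j01 : JoinedIn (Γ 3 2) (Q 2) (P 3) :=
    (hpc 3 2 (by decide)).joinedIn _ (hQ 3 2 (by decide)) _ (hP 3 2 (by decide))
  have j02 : JoinedIn (Γ 2 2) (Q 2) (P 2) :=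
    (hpc 2 2 (by decide)).joinedIn _ (hQ 2 2 (by decide)) _ (hP 2 2 (by decide))
  have j12 : JoinedIn (Γ 3 3 ∪ Γ 2 3) (P 3) (P 2) :=
    ((hpc 3 3 (by decide)).union (hpc 2 3 (by decide))
      ⟨Q 3, hQ 3 3 (by decide), hQ 2 3 (by decide)⟩).joinedIn _ (Or.inl (hP 3 3 (by decide))) _
      (Or.inr (hP 2 3 (by decide)))
  have j03 : JoinedIn (Γ 0 2 ∪ C') (Q 2) (P 0) :=
    ((hpc 0 2 (by decide)).union hc' ⟨P 0, hP 0 2 (by decide), P0'⟩).joinedIn _
      (Or.inl (hQ 0 2 (by decide))) _ (Or.inr P0')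
  have j13 : JoinedIn (Γ 3 0 ∪ C') (P 3) (P 0) :=
    ((hpc 3 0 (by decide)).union hc' ⟨Q 0, hQ 3 0 (by decide), Q0'⟩).joinedIn _
      (Or.inl (hP 3 0 (by decide))) _ (Or.inr P0')
  have j23 : JoinedIn ((Γ 2 3 ∪ Γ 1 3) ∪ C') (P 2) (P 0) :=
    (((hpc 2 3 (by decide)).union (hpc 1 3 (by decide))
      ⟨Q 3, hQ 2 3 (by decide), hQ 1 3 (by decide)⟩).union hc'
      ⟨P 1, Or.inr (hP 1 3 (by decide)), P1'⟩).joinedIn _
      (Or.inl (Or.inl (hP 2 3 (by decide)))) _ (Or.inr P0')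
  have j04 : JoinedIn (Γ 5 2 ∪ C'') (Q 2) (P 4) :=
    ((hpc 5 2 (by decide)).union hc'' ⟨P 5, hP 5 2 (by decide), P5'⟩).joinedIn _
      (Or.inl (hQ 5 2 (by decide))) _ (Or.inr P4')
  have j14 : JoinedIn (Γ 3 5 ∪ C'') (P 3) (P 4) :=
    ((hpc 3 5 (by decide)).union hc'' ⟨Q 5, hQ 3 5 (by decide), Q5'⟩).joinedIn _
      (Or.inl (hP 3 5 (by decide))) _ (Or.inr P4')
  have j24 : JoinedIn (Γ 2 4 ∪ C'') (P 2) (P 4) :=
    ((hpc 2 4 (by decide)).union hc'' ⟨Q 4, hQ 2 4 (by decide), Q4'⟩).joinedIn _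
      (Or.inl (hP 2 4 (by decide))) _ (Or.inr P4')
  -- the disjointness facts
  have D : ∀ x y x' y', E3 x y = true → E3 x' y' = true → x ≠ x' → y ≠ y' →
      Disjoint (Γ x y) (Γ x' y') := hd
  have d0123 : Disjoint (Γ 3 2) ((Γ 2 3 ∪ Γ 1 3) ∪ C') := by
    simp only [hC', Set.disjoint_union_right]
    refine ⟨⟨?_, ?_⟩, ⟨?_, ?_⟩, ?_, ?_⟩ <;> exact D _ _ _ _ (by decide) (by decide) (by decide) (by decide)
  have d0124 : Disjoint (Γ 3 2) (Γ 2 4 ∪ C'') := by
    simp only [hC'', Set.disjoint_union_right]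
    refine ⟨?_, ⟨?_, ?_⟩, ?_, ?_⟩ <;> exact D _ _ _ _ (by decide) (by decide) (by decide) (by decide)
  have d0134 : Disjoint (Γ 3 2) Cᶜ := by
    rw [Set.disjoint_compl_right_iff_subset]
    intro z hz; exact Or.inl (Or.inr hz)
  have d0213 : Disjoint (Γ 2 2) (Γ 3 0 ∪ C') := by
    simp only [hC', Set.disjoint_union_right]
    refine ⟨?_, ⟨?_, ?_⟩, ?_, ?_⟩ <;> exact D _ _ _ _ (by decide) (by decide) (by decide) (by decide)
  have d0214 : Disjoint (Γ 2 2) (Γ 3 5 ∪ C'') := by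
    simp only [hC'', Set.disjoint_union_right]
    refine ⟨?_, ⟨?_, ?_⟩, ?_, ?_⟩ <;> exact D _ _ _ _ (by decide) (by decide) (by decide) (by decide)
  have d0234 : Disjoint (Γ 2 2) Cᶜ := by
    rw [Set.disjoint_compl_right_iff_subset]
    intro z hz; exact Or.inl (Or.inl hz)
  have d1203 : Disjoint (Γ 3 3 ∪ Γ 2 3) (Γ 0 2 ∪ C') := by
    simp only [hC', Set.disjoint_union_right, Set.disjoint_union_left]
    refine ⟨⟨?_, ?_⟩, ⟨⟨?_, ?_⟩, ?_, ?_⟩, ⟨?_, ?_⟩, ?_, ?_⟩ <;>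
      exact D _ _ _ _ (by decide) (by decide) (by decide) (by decide)
  have d1204 : Disjoint (Γ 3 3 ∪ Γ 2 3) (Γ 5 2 ∪ C'') := by
    simp only [hC'', Set.disjoint_union_right, Set.disjoint_union_left]
    refine ⟨⟨?_, ?_⟩, ⟨⟨?_, ?_⟩, ?_, ?_⟩, ⟨?_, ?_⟩, ?_, ?_⟩ <;>
      exact D _ _ _ _ (by decide) (by decide) (by decide) (by decide)
  have d1234 : Disjoint (Γ 3 3 ∪ Γ 2 3) Cᶜ := by
    rw [Set.disjoint_compl_right_iff_subset]
    rintro z (hz | hz)
    · exact Or.inr (Or.inr hz)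
    · exact Or.inr (Or.inl hz)
  have dCC : Disjoint C' C'' := by
    simp only [hC', hC'', Set.disjoint_union_right, Set.disjoint_union_left]
    refine ⟨⟨⟨⟨?_, ?_⟩, ?_, ?_⟩, ⟨?_, ?_⟩, ?_, ?_⟩, ⟨⟨?_, ?_⟩, ?_, ?_⟩, ⟨?_, ?_⟩, ?_, ?_⟩ <;>
      exact D _ _ _ _ (by decide) (by decide) (by decide) (by decide)
  have dC'1 : ∀ x y, E3 x y = true → x ≠ 0 → x ≠ 1 → y ≠ 0 → y ≠ 1 → Disjoint C' (Γ x y) := by
    intro x y h h1 h2 h3 h4
    simp only [hC', Set.disjoint_union_left]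
    refine ⟨⟨?_, ?_⟩, ?_, ?_⟩
    · exact D _ _ _ _ (by decide) h (Ne.symm h1) (Ne.symm h3)
    · exact D _ _ _ _ (by decide) h (Ne.symm h2) (Ne.symm h3)
    · exact D _ _ _ _ (by decide) h (Ne.symm h1) (Ne.symm h4)
    · exact D _ _ _ _ (by decide) h (Ne.symm h2) (Ne.symm h4)
  have dC''1 : ∀ x y, E3 x y = true → x ≠ 4 → x ≠ 5 → y ≠ 4 → y ≠ 5 → Disjoint (Γ x y) C'' := by
    intro x y h h1 h2 h3 h4
    simp only [hC'', Set.disjoint_union_right]
    refine ⟨⟨?_, ?_⟩, ?_, ?_⟩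
    · exact D _ _ _ _ h (by decide) h1 h3
    · exact D _ _ _ _ h (by decide) h2 h3
    · exact D _ _ _ _ h (by decide) h1 h4
    · exact D _ _ _ _ h (by decide) h2 h4
  have d0314 : Disjoint (Γ 0 2 ∪ C') (Γ 3 5 ∪ C'') := by
    simp only [Set.disjoint_union_right, Set.disjoint_union_left]
    exact ⟨⟨D _ _ _ _ (by decide) (by decide) (by decide) (by decide),
      dC'1 _ _ (by decide) (by decide) (by decide) (by decide) (by decide)⟩,
      dC''1 _ _ (by decide) (by decide) (by decide) (by decide) (by decide), dCC⟩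
  have d0324 : Disjoint (Γ 0 2 ∪ C') (Γ 2 4 ∪ C'') := by
    simp only [Set.disjoint_union_right, Set.disjoint_union_left]
    exact ⟨⟨D _ _ _ _ (by decide) (by decide) (by decide) (by decide),
      dC'1 _ _ (by decide) (by decide) (by decide) (by decide) (by decide)⟩,
      dC''1 _ _ (by decide) (by decide) (by decide) (by decide) (by decide), dCC⟩
  have d1304 : Disjoint (Γ 3 0 ∪ C') (Γ 5 2 ∪ C'') := by
    simp only [Set.disjoint_union_right, Set.disjoint_union_left]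
    exact ⟨⟨D _ _ _ _ (by decide) (by decide) (by decide) (by decide),
      dC'1 _ _ (by decide) (by decide) (by decide) (by decide) (by decide)⟩,
      dC''1 _ _ (by decide) (by decide) (by decide) (by decide) (by decide), dCC⟩
  have d1324 : Disjoint (Γ 3 0 ∪ C') (Γ 2 4 ∪ C'') := by
    simp only [Set.disjoint_union_right, Set.disjoint_union_left]
    exact ⟨⟨D _ _ _ _ (by decide) (by decide) (by decide) (by decide),
      dC'1 _ _ (by decide) (by decide) (by decide) (by decide) (by decide)⟩,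
      dC''1 _ _ (by decide) (by decide) (by decide) (by decide) (by decide), dCC⟩
  have d2304 : Disjoint ((Γ 2 3 ∪ Γ 1 3) ∪ C') (Γ 5 2 ∪ C'') := by
    simp only [Set.disjoint_union_right, Set.disjoint_union_left]
    exact ⟨⟨⟨D _ _ _ _ (by decide) (by decide) (by decide) (by decide),
      D _ _ _ _ (by decide) (by decide) (by decide) (by decide)⟩,
      dC'1 _ _ (by decide) (by decide) (by decide) (by decide) (by decide)⟩,
      ⟨dC''1 _ _ (by decide) (by decide) (by decide) (by decide) (by decide),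
      dC''1 _ _ (by decide) (by decide) (by decide) (by decide) (by decide)⟩, dCC⟩
  have d2314 : Disjoint ((Γ 2 3 ∪ Γ 1 3) ∪ C') (Γ 3 5 ∪ C'') := by
    simp only [Set.disjoint_union_right, Set.disjoint_union_left]
    exact ⟨⟨⟨D _ _ _ _ (by decide) (by decide) (by decide) (by decide),
      D _ _ _ _ (by decide) (by decide) (by decide) (by decide)⟩,
      dC'1 _ _ (by decide) (by decide) (by decide) (by decide) (by decide)⟩,
      ⟨dC''1 _ _ (by decide) (by decide) (by decide) (by decide) (by decide),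
      dC''1 _ _ (by decide) (by decide) (by decide) (by decide) (by decide)⟩, dCC⟩
  refine Pool.Agent.Helper479.Bond.VK.k5_joined p S ?_ ?_
  · intro a b hab
    fin_cases a <;> fin_cases b <;> first
      | exact absurd hab (by decide)
      | exact j01 | exact j02 | exact j12 | exact j03 | exact j13 | exact j23
      | exact j04 | exact j14 | exact j24 | exact hJ
  · intro a b c d hab hcd h1 h2 h3 h4
    fin_cases a <;> fin_cases b <;> first
      | exact absurd hab (by decide)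
      | (fin_cases c <;> first
          | exact absurd rfl h1
          | exact absurd rfl h3
          | (fin_cases d <;> first
              | exact absurd hcd (by decide)
              | exact absurd rfl h2
              | exact absurd rfl h4
              | exact d0123 | exact d0124 | exact d0134 | exact d0213 | exact d0214
              | exact d0234 | exact d1203 | exact d1204 | exact d1234 | exact d0314
              | exact d0324 | exact d1304 | exact d1324 | exact d2304 | exact d2314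
              | exact d0123.symm | exact d0124.symm | exact d0134.symm | exact d0213.symm
              | exact d0214.symm | exact d0234.symm | exact d1203.symm | exact d1204.symm
              | exact d1234.symm | exact d0314.symm | exact d0324.symm | exact d1304.symm
              | exact d1324.symm | exact d2304.symm | exact d2314.symm))

end H555R3
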