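import Mathlib
import Pool.Agent.H555R3.UPDefs
import Pool.Agent.H555R3.Nested
import Pool.Agent.H555R3.ThreeLayers

set_option autoImplicit false

/-! The nested bipartite DAG and the lower bound for the area of its poly-line drawings. -/

namespace H555R3

open Set

/-- Adjacency on natural numbers: layer `i` consists of the sources `a = 4i`, `b = 4i+1` and the
sinks `w = 4i+2`, `z = 4i+3`. -/
def EN (u v : ℕ) : Prop :=
  u % 4 < 2 ∧ 2 ≤ v % 4 ∧
    (u / 4 = v / 4 ∨ (u % 4 = 0 ∧ v % 4 = 2 ∧ v / 4 = u / 4 + 1) ∨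
      (u % 4 = 1 ∧ v % 4 = 2 ∧ u / 4 = v / 4 + 1) ∨ (u % 4 = 1 ∧ v % 4 = 3 ∧ v / 4 = u / 4 + 1))

/-- the nested bipartite DAG with `n / 4` layers (and `n % 4` isolated vertices) -/
def nestG (n : ℕ) : BipDAG n where
  side v := decide (2 ≤ v.val % 4)
  E u v := u.val < 4 * (n / 4) ∧ v.val < 4 * (n / 4) ∧ EN u.val v.val
  edge_side := by
    rintro u v ⟨-, -, h1, h2, -⟩
    refine ⟨by simpa using h1, by simpa using h2⟩

section
variable {n : ℕ} (hn : 0 < n) (D : PolyDrawing (nestG n))

/-- the vertex with number `k` -/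
def vt (n : ℕ) (hn : 0 < n) (k : ℕ) : Fin n := ⟨k % n, Nat.mod_lt _ hn⟩

theorem vt_val {n : ℕ} (hn : 0 < n) {k : ℕ} (hk : k < n) : (vt n hn k).val = k :=
  Nat.mod_eq_of_lt hk

/-- the chain of grid points of an edge -/
def route (u v : Fin n) : List (ℤ × ℤ) := D.pos u :: (D.bends u v ++ [D.pos v])

theorem route_ne (u v : Fin n) : route D u v ≠ [] := List.cons_ne_nil _ _

theorem route_src (u v : Fin n) : D.pos u ∈ route D u v := by simp [route]
theorem route_snk (u v : Fin n) : D.pos v ∈ route D u v := by simp [route]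

theorem curves_disjoint {u v u' v' : Fin n} (h : (nestG n).E u v) (h' : (nestG n).E u' v')
    (hu : u ≠ u') (hv : v ≠ v') :
    Disjoint (chainCurve (route D u v)) (chainCurve (route D u' v')) := by
  rw [Set.disjoint_left]
  intro z hz hz'
  obtain ⟨x, hx, hx', -⟩ := D.noncross u v u' v' h h' (by simp [hu]) z hz hz'
  have e1 := (nestG n).edge_side _ _ h
  have e2 := (nestG n).edge_side _ _ h'
  rcases hx with rfl | rfl <;> rcases hx' with rfl | rfl
  · exact hu rfl
  · rw [e1.1] at e2; exact absurd e2.2 (by simp)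
  · rw [e1.2] at e2; exact absurd e2.1 (by simp)
  · exact hv rfl

/-- the cycle of layer `i` -/
def cyc (i : ℕ) : Set ℂ :=
  (chainCurve (route D (vt n hn (4 * i)) (vt n hn (4 * i + 2))) ∪
    chainCurve (route D (vt n hn (4 * i + 1)) (vt n hn (4 * i + 2)))) ∪
  (chainCurve (route D (vt n hn (4 * i)) (vt n hn (4 * i + 3))) ∪
    chainCurve (route D (vt n hn (4 * i + 1)) (vt n hn (4 * i + 3))))

/-- the grid points of layer `i` -/
def cpts (i : ℕ) : List (ℤ × ℤ) :=
  (route D (vt n hn (4 * i)) (vt n hn (4 * i + 2)) ++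
    route D (vt n hn (4 * i + 1)) (vt n hn (4 * i + 2))) ++
  (route D (vt n hn (4 * i)) (vt n hn (4 * i + 3)) ++
    route D (vt n hn (4 * i + 1)) (vt n hn (4 * i + 3)))

theorem adj {x y : ℕ} (hx : x < 4 * (n / 4)) (hy : y < 4 * (n / 4)) (h : EN x y) :
    (nestG n).E (vt n hn x) (vt n hn y) := by
  have h1 : (vt n hn x).val = x := vt_val hn (by omega)
  have h2 : (vt n hn y).val = y := vt_val hn (by omega)
  refine ⟨?_, ?_, ?_⟩
  · rw [h1]; exact hx
  · rw [h2]; exact hy
  · rw [h1, h2]; exact h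

theorem vt_ne {x y : ℕ} (hx : x < 4 * (n / 4)) (hy : y < 4 * (n / 4)) (h : x ≠ y) :
    vt n hn x ≠ vt n hn y := by
  intro he
  apply h
  rw [← vt_val hn (show x < n by omega), ← vt_val hn (show y < n by omega), he]

include hn in
theorem lower_bound (hK : 3 ≤ n / 4) (W H : ℕ) (hfit : D.FitsIn W H) :
    n / 4 - 2 ≤ W ∧ n / 4 - 2 ≤ H := by
  obtain ⟨a, b, hv, hb⟩ := hfit
  set K := n / 4 with hKdef
  have hEa : ∀ i < K, (nestG n).E (vt n hn (4 * i)) (vt n hn (4 * i + 2)) := fun i hi =>
    adj hn (by omega) (by omega) ⟨by omega, by omega, by omega⟩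
  have hEb : ∀ i < K, (nestG n).E (vt n hn (4 * i + 1)) (vt n hn (4 * i + 2)) := fun i hi =>
    adj hn (by omega) (by omega) ⟨by omega, by omega, by omega⟩
  have hEc : ∀ i < K, (nestG n).E (vt n hn (4 * i)) (vt n hn (4 * i + 3)) := fun i hi =>
    adj hn (by omega) (by omega) ⟨by omega, by omega, by omega⟩
  have hEd : ∀ i < K, (nestG n).E (vt n hn (4 * i + 1)) (vt n hn (4 * i + 3)) := fun i hi =>
    adj hn (by omega) (by omega) ⟨by omega, by omega, by omega⟩
  have hrbox : ∀ u v, (nestG n).E u v → ∀ p ∈ route D u v,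
      a ≤ p.1 ∧ p.1 ≤ a + W ∧ b ≤ p.2 ∧ p.2 ≤ b + H := by
    intro u v huv p hp
    simp only [route, List.mem_cons, List.mem_append, List.not_mem_nil, or_false] at hp
    rcases hp with rfl | hp | rfl
    · exact hv u
    · exact hb u v huv p hp
    · exact hv v
  have hpc : ∀ u v : Fin n, IsPathConnected (chainCurve (route D u v)) := fun u v =>
    chainCurve_isPathConnected (route_ne D u v)
  have hsrc : ∀ u v : Fin n, pt (D.pos u) ∈ chainCurve (route D u v) := fun u v =>
    pt_mem_chainCurve (route_src D u v)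
  have hsnk : ∀ u v : Fin n, pt (D.pos v) ∈ chainCurve (route D u v) := fun u v =>
    pt_mem_chainCurve (route_snk D u v)
  have hcpc : ∀ i, IsPathConnected (cyc hn D i) := by
    intro i
    refine ((hpc _ _).union (hpc _ _) ⟨_, hsnk _ _, hsnk _ _⟩).union
      ((hpc _ _).union (hpc _ _) ⟨_, hsnk _ _, hsnk _ _⟩) ⟨_, Or.inl (hsrc _ _), Or.inl (hsrc _ _)⟩
  have hdisj : ∀ i j, i < K → j < K → i ≠ j → Disjoint (cyc hn D i) (cyc hn D j) := by
    intro i j hi hj hij
    have key : ∀ s t s' t' : ℕ, (s = 0 ∨ s = 1) → (t = 2 ∨ t = 3) → (s' = 0 ∨ s' = 1) →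
        (t' = 2 ∨ t' = 3) →
        Disjoint (chainCurve (route D (vt n hn (4 * i + s)) (vt n hn (4 * i + t))))
          (chainCurve (route D (vt n hn (4 * j + s')) (vt n hn (4 * j + t')))) := by
      intro s t s' t' hs ht hs' ht'
      refine curves_disjoint D (adj hn (by omega) (by omega) ⟨by omega, by omega, by omega⟩)
        (adj hn (by omega) (by omega) ⟨by omega, by omega, by omega⟩)
        (vt_ne hn (by omega) (by omega) (by omega)) (vt_ne hn (by omega) (by omega) (by omega))
    simp only [cyc, Set.disjoint_union_left, Set.disjoint_union_right]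
    have z : ∀ k : ℕ, 4 * k = 4 * k + 0 := fun k => rfl
    rw [z i, z j]
    refine ⟨⟨⟨⟨?_, ?_⟩, ?_, ?_⟩, ⟨?_, ?_⟩, ?_, ?_⟩, ⟨⟨?_, ?_⟩, ?_, ?_⟩, ⟨?_, ?_⟩, ?_, ?_⟩ <;>
      exact key _ _ _ _ (by simp) (by simp) (by simp) (by simp)
  refine nested_bound K (fun i => {p | p ∈ cpts hn D i}) (cyc hn D) ?_ ?_ ?_ ?_ ?_ ?_ hK a b W H ?_
  · intro i hi
    exact List.finite_toSet _
  · intro i hi
    exact ⟨D.pos (vt n hn (4 * i)), by simp [cpts, route]⟩
  · intro i hi p hp
    simp only [cpts, Set.mem_ofPred_eq, List.mem_append] at hp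
    rcases hp with (hp | hp) | (hp | hp)
    · exact Or.inl (Or.inl (pt_mem_chainCurve hp))
    · exact Or.inl (Or.inr (pt_mem_chainCurve hp))
    · exact Or.inr (Or.inl (pt_mem_chainCurve hp))
    · exact Or.inr (Or.inr (pt_mem_chainCurve hp))
  · intro i hi S hS hp
    simp only [cpts, Set.mem_ofPred_eq, List.mem_append] at hp
    refine Set.union_subset (Set.union_subset ?_ ?_) (Set.union_subset ?_ ?_)
    · exact chainCurve_subset hS (fun p h => hp p (Or.inl (Or.inl h)))
    · exact chainCurve_subset hS (fun p h => hp p (Or.inl (Or.inr h)))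
    · exact chainCurve_subset hS (fun p h => hp p (Or.inr (Or.inl h)))
    · exact chainCurve_subset hS (fun p h => hp p (Or.inr (Or.inr h)))
  · intro i hi
    exact hdisj i (i + 1) (by omega) (by omega) (by omega)
  · intro i hi x hx y hy hJ
    -- the three-layer configuration
    let src : Fin 6 → Fin n := fun x => vt n hn (4 * (i + x.val / 2) + x.val % 2)
    let snk : Fin 6 → Fin n := fun y => vt n hn (4 * (i + y.val / 2) + 2 + y.val % 2)
    have hE : ∀ x y : Fin 6, E3 x y = true → (nestG n).E (src x) (snk y) := by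
      intro x y hxy
      have hx6 := x.isLt
      have hy6 := y.isLt
      refine adj hn (by omega) (by omega) ⟨by omega, by omega, ?_⟩
      simp only [E3, Bool.or_eq_true, beq_iff_eq, Prod.mk.injEq] at hxy
      omega
    have hs : ∀ x x' : Fin 6, x ≠ x' → src x ≠ src x' := by
      intro x x' hne
      have hx6 := x.isLt
      have hy6 := x'.isLt
      have : x.val ≠ x'.val := fun h => hne (Fin.ext h)
      exact vt_ne hn (by omega) (by omega) (by omega)
    have ht : ∀ x x' : Fin 6, x ≠ x' → snk x ≠ snk x' := by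
      intro x x' hne
      have hx6 := x.isLt
      have hy6 := x'.isLt
      have : x.val ≠ x'.val := fun h => hne (Fin.ext h)
      exact vt_ne hn (by omega) (by omega) (by omega)
    have hC : ((chainCurve (route D (src 2) (snk 2)) ∪ chainCurve (route D (src 3) (snk 2))) ∪
        (chainCurve (route D (src 2) (snk 3)) ∪ chainCurve (route D (src 3) (snk 3)))) =
        cyc hn D (i + 1) := rfl
    refine three_layers (fun x y => chainCurve (route D (src x) (snk y)))
      (fun x => pt (D.pos (src x))) (fun y => pt (D.pos (snk y))) (fun x y _ => hpc _ _)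
      (fun x y _ => hsrc _ _) (fun x y _ => hsnk _ _) ?_ ?_
    · intro x y x' y' h h' hx hy
      exact curves_disjoint D (hE _ _ h) (hE _ _ h') (hs _ _ hx) (ht _ _ hy)
    · rw [hC]
      have m0 : pt (D.pos (src 0)) ∈ cyc hn D i := Or.inl (Or.inl (hsrc _ _))
      have m4 : pt (D.pos (src 4)) ∈ cyc hn D (i + 2) := Or.inl (Or.inl (hsrc _ _))
      have j0 : JoinedIn (cyc hn D (i + 1))ᶜ (pt (D.pos (src 0))) x :=
        ((hcpc i).joinedIn _ m0 _ hx).mono
          (Set.disjoint_left.mp (hdisj i (i + 1) (by omega) (by omega) (by omega)))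
      have j4 : JoinedIn (cyc hn D (i + 1))ᶜ y (pt (D.pos (src 4))) :=
        ((hcpc (i + 2)).joinedIn _ hy _ m4).mono
          (Set.disjoint_left.mp (hdisj (i + 2) (i + 1) (by omega) (by omega) (by omega)))
      exact (j0.trans hJ).trans j4
  · intro i hi p hp
    simp only [cpts, Set.mem_ofPred_eq, List.mem_append] at hp
    rcases hp with (hp | hp) | (hp | hp)
    · exact hrbox _ _ (hEa i hi) p hp
    · exact hrbox _ _ (hEb i hi) p hp
    · exact hrbox _ _ (hEc i hi) p hp
    · exact hrbox _ _ (hEd i hi) p hp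

end

end H555R3
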