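import Mathlib
import Pool.Agent.H555R3.UPDefs
import Pool.Agent.H555R3.LowerBound

set_option autoImplicit false

/-! An explicit poly-line upward planar grid drawing of the nested bipartite DAG. -/

namespace H555R3

open Set

/-- the abscissa of the chain `(x0,y0),(c,y0+1),(c,y1-1),(x1,y1)` at the integer height `m` -/
def xe (x0 y0 c x1 y1 m : ℤ) : ℤ := if m ≤ y0 then x0 else if y1 ≤ m then x1 else c

theorem mem_chain4 {x0 y0 c x1 y1 : ℤ} (h : y0 + 1 < y1 - 1) {z : ℂ}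
    (hz : z ∈ chainCurve [(x0, y0), (c, y0 + 1), (c, y1 - 1), (x1, y1)]) :
    ∃ (m : ℤ) (t : ℝ), 0 ≤ t ∧ t < 1 ∧ z.im = m + t ∧ y0 ≤ m ∧ (m : ℝ) + t ≤ y1 ∧
      z.re = (1 - t) * xe x0 y0 c x1 y1 m + t * xe x0 y0 c x1 y1 (m + 1) := by
  have hy : (y0 : ℝ) + 1 < y1 - 1 := by exact_mod_cast h
  simp only [chainCurve, Set.mem_union, Set.mem_singleton_iff] at hz
  rcases hz with hz | hz | hz | hz
  · obtain ⟨s, t, hs, ht, hst, rfl⟩ := hz
    have hs1 : s = 1 - t := by linarith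
    subst hs1
    simp only [pt, Complex.add_im, Complex.smul_im, Complex.add_re, Complex.smul_re, smul_eq_mul]
    push_cast
    rcases lt_or_eq_of_le (show t ≤ 1 by linarith) with h1 | h1
    · refine ⟨y0, t, ht, h1, by ring, le_refl _, by linarith, ?_⟩
      have e1 : xe x0 y0 c x1 y1 y0 = x0 := by simp [xe]
      have e2 : xe x0 y0 c x1 y1 (y0 + 1) = c := by
        unfold xe; rw [if_neg (by omega), if_neg (by omega)]
      rw [e1, e2]
    · subst h1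
      refine ⟨y0 + 1, 0, le_refl _, by norm_num, by push_cast; ring, by omega,
        by push_cast; linarith, ?_⟩
      have e2 : xe x0 y0 c x1 y1 (y0 + 1) = c := by
        unfold xe; rw [if_neg (by omega), if_neg (by omega)]
      rw [e2]; ring
  · obtain ⟨s, t, hs, ht, hst, rfl⟩ := hz
    have hs1 : s = 1 - t := by linarith
    subst hs1
    set Y : ℝ := (1 - t) * (y0 + 1) + t * (y1 - 1) with hY
    have him : ((1 - t) • pt (c, y0 + 1) + t • pt (c, y1 - 1)).im = Y := by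
      simp [pt, hY]
    have hre : ((1 - t) • pt (c, y0 + 1) + t • pt (c, y1 - 1)).re = c := by
      simp [pt]; ring
    have hY1 : (y0 : ℝ) + 1 ≤ Y := by rw [hY]; nlinarith
    have hY2 : Y ≤ y1 - 1 := by rw [hY]; nlinarith
    refine ⟨⌊Y⌋, Int.fract Y, Int.fract_nonneg _, Int.fract_lt_one _, ?_, ?_, ?_, ?_⟩
    · rw [him, Int.floor_add_fract]
    · have : y0 + 1 ≤ ⌊Y⌋ := Int.le_floor.mpr (by push_cast; exact hY1)
      omega
    · rw [Int.floor_add_fract]; linarith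
    · have h1 : y0 + 1 ≤ ⌊Y⌋ := Int.le_floor.mpr (by push_cast; exact hY1)
      have h2 : ⌊Y⌋ ≤ y1 - 1 := by
        have := Int.floor_le_floor hY2
        have e : ⌊((y1 : ℝ) - 1)⌋ = y1 - 1 := by
          have : ((y1 : ℝ) - 1) = ((y1 - 1 : ℤ) : ℝ) := by push_cast; ring
          rw [this, Int.floor_intCast]
        rwa [e] at this
      have e1 : xe x0 y0 c x1 y1 ⌊Y⌋ = c := by
        unfold xe; rw [if_neg (by omega), if_neg (by omega)]
      rw [hre, e1]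
      by_cases h3 : ⌊Y⌋ = y1 - 1
      · have hf : Int.fract Y = 0 := by
          have h4 := Int.floor_add_fract Y
          rw [h3] at h4
          push_cast at h4
          have := Int.fract_nonneg Y
          linarith
        rw [hf]; ring
      · have e2 : xe x0 y0 c x1 y1 (⌊Y⌋ + 1) = c := by
          unfold xe; rw [if_neg (by omega), if_neg (by omega)]
        rw [e2]; ring
  · obtain ⟨s, t, hs, ht, hst, rfl⟩ := hz
    have hs1 : s = 1 - t := by linarith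
    subst hs1
    simp only [pt, Complex.add_im, Complex.smul_im, Complex.add_re, Complex.smul_re, smul_eq_mul]
    push_cast
    rcases lt_or_eq_of_le (show t ≤ 1 by linarith) with h1 | h1
    · refine ⟨y1 - 1, t, ht, h1, by push_cast; ring, by omega, by push_cast; linarith, ?_⟩
      have e1 : xe x0 y0 c x1 y1 (y1 - 1) = c := by
        unfold xe; rw [if_neg (by omega), if_neg (by omega)]
      have e2 : xe x0 y0 c x1 y1 (y1 - 1 + 1) = x1 := by
        unfold xe; rw [if_neg (by omega), if_pos (by omega)]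
      rw [e1, e2]
    · subst h1
      refine ⟨y1, 0, le_refl _, by norm_num, by push_cast; ring, by omega,
        by push_cast; linarith, ?_⟩
      have e2 : xe x0 y0 c x1 y1 y1 = x1 := by
        unfold xe; rw [if_neg (by omega), if_pos (by omega)]
      rw [e2]; ring
  · subst hz
    refine ⟨y1, 0, le_refl _, by norm_num, by simp [pt], by omega, by simp, ?_⟩
    have e2 : xe x0 y0 c x1 y1 y1 = x1 := by
      unfold xe; rw [if_neg (by omega), if_pos (by omega)]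
    rw [e2]; simp [pt]

/-- The data of an edge of the nested graph in the drawing: endpoints `(x0,y0)`, `(x1,y1)` and
column `c`. -/
def ED (K : ℤ) (u v : ℕ) (x0 y0 c x1 y1 : ℤ) : Prop :=
  ∃ i : ℕ, (i : ℤ) < K ∧
  ((u = 4 * i ∧ v = 4 * i + 2 ∧ x0 = -(K + 2 * i + 2) ∧ y0 = -i ∧ c = -(K + 2 * i + 2) ∧
      x1 = 2 * K + 2 * i + 2 ∧ y1 = K + 3 + i) ∨
   (u = 4 * i + 1 ∧ v = 4 * i + 2 ∧ x0 = 2 * K + 2 * i + 2 ∧ y0 = -i ∧ c = 2 * K + 2 * i + 2 ∧
      x1 = 2 * K + 2 * i + 2 ∧ y1 = K + 3 + i) ∨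
   (u = 4 * i ∧ v = 4 * i + 3 ∧ x0 = -(K + 2 * i + 2) ∧ y0 = -i ∧ c = -(K - i) ∧
      x1 = 2 * (K - i) ∧ y1 = K - i + 2) ∨
   (u = 4 * i + 1 ∧ v = 4 * i + 3 ∧ x0 = 2 * K + 2 * i + 2 ∧ y0 = -i ∧ c = 2 * (K - i) ∧
      x1 = 2 * (K - i) ∧ y1 = K - i + 2) ∨
   ((i : ℤ) + 1 < K ∧ u = 4 * i ∧ v = 4 * i + 6 ∧ x0 = -(K + 2 * i + 2) ∧ y0 = -i ∧
      c = -(K + 2 * i + 3) ∧ x1 = 2 * K + 2 * i + 4 ∧ y1 = K + 4 + i) ∨
   ((i : ℤ) + 1 < K ∧ u = 4 * i + 5 ∧ v = 4 * i + 2 ∧ x0 = 2 * K + 2 * i + 4 ∧ y0 = -i - 1 ∧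
      c = 2 * K + 2 * i + 3 ∧ x1 = 2 * K + 2 * i + 2 ∧ y1 = K + 3 + i) ∨
   ((i : ℤ) + 1 < K ∧ u = 4 * i + 1 ∧ v = 4 * i + 7 ∧ x0 = 2 * K + 2 * i + 2 ∧ y0 = -i ∧
      c = 2 * K - 2 * i - 1 ∧ x1 = 2 * (K - i - 1) ∧ y1 = K - i + 1))

theorem ED.long {K : ℤ} {u v : ℕ} {x0 y0 c x1 y1 : ℤ} (h : ED K u v x0 y0 c x1 y1) :
    y0 + 1 < y1 - 1 := by
  obtain ⟨i, hi, h | h | h | h | h | h | h⟩ := h <;> omega

theorem ED.column {K : ℤ} {u v u' v' : ℕ} {x0 y0 c x1 y1 x0' y0' c' x1' y1' : ℤ}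
    (h : ED K u v x0 y0 c x1 y1) (h' : ED K u' v' x0' y0' c' x1' y1') (hc : c = c') :
    u = u' ∧ v = v' := by
  obtain ⟨i, hi, h | h | h | h | h | h | h⟩ := h <;>
  obtain ⟨j, hj, h' | h' | h' | h' | h' | h' | h'⟩ := h' <;> omega

set_option maxHeartbeats 4000000 in
theorem ED.order {K : ℤ} {u v u' v' : ℕ} {x0 y0 c x1 y1 x0' y0' c' x1' y1' : ℤ}
    (h : ED K u v x0 y0 c x1 y1) (h' : ED K u' v' x0' y0' c' x1' y1') (hc : c < c')
    (m : ℤ) (h1 : y0 ≤ m) (h2 : m ≤ y1) (h3 : y0' ≤ m) (h4 : m ≤ y1') :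
    xe x0 y0 c x1 y1 m ≤ xe x0' y0' c' x1' y1' m ∧
    (xe x0 y0 c x1 y1 m = xe x0' y0' c' x1' y1' m →
      (m = y0 ∧ m = y0' ∧ u = u') ∨ (m = y1 ∧ m = y1' ∧ v = v')) := by
  unfold xe
  obtain ⟨i, hi, h | h | h | h | h | h | h⟩ := h <;>
  obtain ⟨j, hj, h' | h' | h' | h' | h' | h' | h'⟩ := h' <;>
  (split_ifs <;> omega)

end H555R3
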