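import Mathlib
import Pool.Agent.H555R3.UPDefs
import Pool.Agent.H555R3.LowerBound
import Pool.Agent.H555R3.Draw

set_option autoImplicit false

/-! The explicit drawing, assembled. -/

namespace H555R3

open Set

/-- abscissa of a vertex -/
def px (K v : ℕ) : ℤ :=
  if v < 4 * K then
    (if v % 4 = 0 then -((K : ℤ) + 2 * (v / 4 : ℕ) + 2)
     else if v % 4 = 3 then 2 * ((K : ℤ) - (v / 4 : ℕ))
     else 2 * K + 2 * (v / 4 : ℕ) + 2)
  else v

/-- ordinate of a vertex -/
def py (K v : ℕ) : ℤ :=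
  if v < 4 * K then
    (if v % 4 < 2 then -((v / 4 : ℕ) : ℤ)
     else if v % 4 = 2 then (K : ℤ) + 3 + (v / 4 : ℕ)
     else (K : ℤ) - (v / 4 : ℕ) + 2)
  else -K - 5

/-- column of an edge -/
def col (K u v : ℕ) : ℤ :=
  if u % 4 = 0 then
    (if v % 4 = 3 then -((K : ℤ) - (u / 4 : ℕ))
     else if u / 4 = v / 4 then -((K : ℤ) + 2 * (u / 4 : ℕ) + 2)
     else -((K : ℤ) + 2 * (u / 4 : ℕ) + 3))
  else
    (if v % 4 = 3 then
      (if u / 4 = v / 4 then 2 * ((K : ℤ) - (u / 4 : ℕ)) else 2 * (K : ℤ) - 2 * (u / 4 : ℕ) - 1)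
     else
      (if u / 4 = v / 4 then 2 * (K : ℤ) + 2 * (u / 4 : ℕ) + 2
       else 2 * (K : ℤ) + 2 * (v / 4 : ℕ) + 3))

theorem px0 {K i v : ℕ} (hv : v = 4 * i) (hi : i < K) : px K v = -((K : ℤ) + 2 * i + 2) := by
  have h1 : v < 4 * K := by omega
  have h2 : v % 4 = 0 := by omega
  have h3 : v / 4 = i := by omega
  unfold px; rw [if_pos h1, if_pos h2, h3]
theorem px1 {K i v : ℕ} (hv : v = 4 * i + 1 ∨ v = 4 * i + 2) (hi : i < K) :
    px K v = 2 * (K : ℤ) + 2 * i + 2 := by
  have h1 : v < 4 * K := by omega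
  have h2 : ¬ v % 4 = 0 := by omega
  have h4 : ¬ v % 4 = 3 := by omega
  have h3 : v / 4 = i := by omega
  unfold px; rw [if_pos h1, if_neg h2, if_neg h4, h3]
theorem px3 {K i v : ℕ} (hv : v = 4 * i + 3) (hi : i < K) : px K v = 2 * ((K : ℤ) - i) := by
  have h1 : v < 4 * K := by omega
  have h2 : ¬ v % 4 = 0 := by omega
  have h4 : v % 4 = 3 := by omega
  have h3 : v / 4 = i := by omega
  unfold px; rw [if_pos h1, if_neg h2, if_pos h4, h3]
theorem py0 {K i v : ℕ} (hv : v = 4 * i ∨ v = 4 * i + 1) (hi : i < K) : py K v = -(i : ℤ) := by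
  have h1 : v < 4 * K := by omega
  have h2 : v % 4 < 2 := by omega
  have h3 : v / 4 = i := by omega
  unfold py; rw [if_pos h1, if_pos h2, h3]
theorem py2 {K i v : ℕ} (hv : v = 4 * i + 2) (hi : i < K) : py K v = (K : ℤ) + 3 + i := by
  have h1 : v < 4 * K := by omega
  have h2 : ¬ v % 4 < 2 := by omega
  have h4 : v % 4 = 2 := by omega
  have h3 : v / 4 = i := by omega
  unfold py; rw [if_pos h1, if_neg h2, if_pos h4, h3]
theorem py3 {K i v : ℕ} (hv : v = 4 * i + 3) (hi : i < K) : py K v = (K : ℤ) - i + 2 := by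
  have h1 : v < 4 * K := by omega
  have h2 : ¬ v % 4 < 2 := by omega
  have h4 : ¬ v % 4 = 2 := by omega
  have h3 : v / 4 = i := by omega
  unfold py; rw [if_pos h1, if_neg h2, if_neg h4, h3]

theorem ed_of_EN {K u v : ℕ} (hu : u < 4 * K) (hv : v < 4 * K) (h : EN u v) :
    ED K u v (px K u) (py K u) (col K u v) (px K v) (py K v) := by
  obtain ⟨h1, h2, h3 | h3 | h3 | h3⟩ := h
  · have hi : u / 4 < K := by omega
    refine ⟨u / 4, by exact_mod_cast hi, ?_⟩
    have hu4 : u % 4 = 0 ∨ u % 4 = 1 := by omega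
    have hv4 : v % 4 = 2 ∨ v % 4 = 3 := by omega
    rcases hu4 with a | a <;> rcases hv4 with b | b
    · refine Or.inl ⟨by omega, by omega, px0 (by omega) hi, py0 (by omega) hi, ?_,
        px1 (by omega) hi, py2 (by omega) hi⟩
      unfold col; rw [if_pos a, if_neg (by omega), if_pos h3]
    · refine Or.inr (Or.inr (Or.inl ⟨by omega, by omega, px0 (by omega) hi, py0 (by omega) hi, ?_,
        px3 (by omega) hi, py3 (by omega) hi⟩))
      unfold col; rw [if_pos a, if_pos b]
    · refine Or.inr (Or.inl ⟨by omega, by omega, px1 (by omega) hi, py0 (by omega) hi, ?_,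
        px1 (by omega) hi, py2 (by omega) hi⟩)
      unfold col; rw [if_neg (by omega), if_neg (by omega), if_pos h3]
    · refine Or.inr (Or.inr (Or.inr (Or.inl ⟨by omega, by omega, px1 (by omega) hi,
        py0 (by omega) hi, ?_, px3 (by omega) hi, py3 (by omega) hi⟩)))
      unfold col; rw [if_neg (by omega), if_pos b, if_pos h3]
  · obtain ⟨a, b, c⟩ := h3
    have hi : u / 4 < K := by omega
    have hi' : u / 4 + 1 < K := by omega
    refine ⟨u / 4, by exact_mod_cast hi, ?_⟩
    refine Or.inr (Or.inr (Or.inr (Or.inr (Or.inl ⟨by exact_mod_cast hi', by omega, by omega,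
      px0 (by omega) hi, py0 (by omega) hi, ?_, ?_, ?_⟩))))
    · unfold col; rw [if_pos a, if_neg (by omega), if_neg (by omega)]
    · rw [px1 (i := u / 4 + 1) (by omega) hi']; push_cast; ring
    · rw [py2 (i := u / 4 + 1) (by omega) hi']; push_cast; ring
  · obtain ⟨a, b, c⟩ := h3
    have hi : v / 4 < K := by omega
    have hi' : v / 4 + 1 < K := by omega
    refine ⟨v / 4, by exact_mod_cast hi, ?_⟩
    refine Or.inr (Or.inr (Or.inr (Or.inr (Or.inr (Or.inl ⟨by exact_mod_cast hi', by omega,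
      by omega, ?_, ?_, ?_, px1 (by omega) hi, py2 (by omega) hi⟩)))))
    · rw [px1 (i := v / 4 + 1) (by omega) hi']; push_cast; ring
    · rw [py0 (i := v / 4 + 1) (by omega) hi']; push_cast; ring
    · unfold col; rw [if_neg (by omega), if_neg (by omega), if_neg (by omega)]
  · obtain ⟨a, b, c⟩ := h3
    have hi : u / 4 < K := by omega
    have hi' : u / 4 + 1 < K := by omega
    refine ⟨u / 4, by exact_mod_cast hi, ?_⟩
    refine Or.inr (Or.inr (Or.inr (Or.inr (Or.inr (Or.inr ⟨by exact_mod_cast hi', by omega,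
      by omega, px1 (by omega) hi, py0 (by omega) hi, ?_, ?_, ?_⟩)))))
    · unfold col; rw [if_neg (by omega), if_pos b, if_neg (by omega)]
    · rw [px3 (i := u / 4 + 1) (by omega) hi']; push_cast; ring
    · rw [py3 (i := u / 4 + 1) (by omega) hi']; push_cast; ring

theorem pos_inj' {K u v : ℕ} (h1 : px K u = px K v) (h2 : py K u = py K v) : u = v := by
  unfold px at h1
  unfold py at h2
  split_ifs at h1 h2 <;> omega

theorem py_ge {K v : ℕ} (hv : v < 4 * K) : -(K : ℤ) ≤ py K v := by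
  unfold py
  split_ifs <;> omega

theorem common_of_lt {K : ℤ} {u v u' v' : ℕ} {x0 y0 c x1 y1 x0' y0' c' x1' y1' : ℤ}
    (h : ED K u v x0 y0 c x1 y1) (h' : ED K u' v' x0' y0' c' x1' y1') (hc : c < c')
    {z : ℂ} (hz : z ∈ chainCurve [(x0, y0), (c, y0 + 1), (c, y1 - 1), (x1, y1)])
    (hz' : z ∈ chainCurve [(x0', y0'), (c', y0' + 1), (c', y1' - 1), (x1', y1')]) :
    (u = u' ∧ z = pt (x0, y0)) ∨ (v = v' ∧ z = pt (x1, y1)) := by
  have hl := h.long
  have hl' := h'.long
  obtain ⟨m, t, ht0, ht1, him, hm0, hm1, hre⟩ := mem_chain4 hl hz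
  obtain ⟨m', t', ht0', ht1', him', hm0', hm1', hre'⟩ := mem_chain4 hl' hz'
  have hmm : m = m' := by
    have e : (m : ℝ) + t = m' + t' := by rw [← him, ← him']
    have h1 : (m : ℝ) < m' + 1 := by linarith
    have h2 : (m' : ℝ) < m + 1 := by linarith
    have h3 : m < m' + 1 := by exact_mod_cast h1
    have h4 : m' < m + 1 := by exact_mod_cast h2
    omega
  subst hmm
  have htt : t = t' := by rw [him] at him'; linarith
  subst htt
  have hmy : m ≤ y1 := by
    have : (m : ℝ) ≤ y1 := by linarith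
    exact_mod_cast this
  have hmy' : m ≤ y1' := by
    have : (m : ℝ) ≤ y1' := by linarith
    exact_mod_cast this
  obtain ⟨o1, o2⟩ := ED.order h h' hc m hm0 hmy hm0' hmy'
  have o1R : (xe x0 y0 c x1 y1 m : ℝ) ≤ xe x0' y0' c' x1' y1' m := by exact_mod_cast o1
  rcases eq_or_lt_of_le ht0 with h0 | h0
  · subst h0
    have he : xe x0 y0 c x1 y1 m = xe x0' y0' c' x1' y1' m := by
      have : (xe x0 y0 c x1 y1 m : ℝ) = xe x0' y0' c' x1' y1' m := by
        rw [hre] at hre'
        linarith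
      exact_mod_cast this
    rcases o2 he with ⟨a1, a2, a3⟩ | ⟨a1, a2, a3⟩
    · left
      refine ⟨a3, ?_⟩
      apply Complex.ext
      · rw [hre, a1]; simp [xe, pt]
      · rw [him, a1]; simp [pt]
    · right
      refine ⟨a3, ?_⟩
      have hn : ¬ y1 ≤ y0 := by omega
      apply Complex.ext
      · rw [hre, a1]; simp [xe, pt, hn]
      · rw [him, a1]; simp [pt]
  · exfalso
    have hm1y : m + 1 ≤ y1 := by
      have : (m : ℝ) < y1 := by linarith
      have : m < y1 := by exact_mod_cast this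
      omega
    have hm1y' : m + 1 ≤ y1' := by
      have : (m : ℝ) < y1' := by linarith
      have : m < y1' := by exact_mod_cast this
      omega
    obtain ⟨o3, o4⟩ := ED.order h h' hc (m + 1) (by omega) hm1y (by omega) hm1y'
    have o3R : (xe x0 y0 c x1 y1 (m + 1) : ℝ) ≤ xe x0' y0' c' x1' y1' (m + 1) := by
      exact_mod_cast o3
    rw [hre] at hre'
    have e1 : (xe x0 y0 c x1 y1 m : ℝ) = xe x0' y0' c' x1' y1' m := by
      have ht1'' : 0 < 1 - t := by linarith
      nlinarith [mul_nonneg ht1''.le (sub_nonneg.mpr o1R), mul_nonneg ht0 (sub_nonneg.mpr o3R)]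
    have e2 : (xe x0 y0 c x1 y1 (m + 1) : ℝ) = xe x0' y0' c' x1' y1' (m + 1) := by
      rw [e1] at hre'
      have : t * (xe x0 y0 c x1 y1 (m + 1) : ℝ) = t * xe x0' y0' c' x1' y1' (m + 1) := by linarith
      exact mul_left_cancel₀ (ne_of_gt h0) this
    have e1' : xe x0 y0 c x1 y1 m = xe x0' y0' c' x1' y1' m := by exact_mod_cast e1
    have e2' : xe x0 y0 c x1 y1 (m + 1) = xe x0' y0' c' x1' y1' (m + 1) := by exact_mod_cast e2
    have a := o2 e1'
    have b := o4 e2'
    omega

theorem common_vertex {K : ℤ} {u v u' v' : ℕ} {x0 y0 c x1 y1 x0' y0' c' x1' y1' : ℤ}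
    (h : ED K u v x0 y0 c x1 y1) (h' : ED K u' v' x0' y0' c' x1' y1')
    (hne : ¬ (u = u' ∧ v = v'))
    {z : ℂ} (hz : z ∈ chainCurve [(x0, y0), (c, y0 + 1), (c, y1 - 1), (x1, y1)])
    (hz' : z ∈ chainCurve [(x0', y0'), (c', y0' + 1), (c', y1' - 1), (x1', y1')]) :
    (u = u' ∧ z = pt (x0, y0) ∧ z = pt (x0', y0')) ∨
      (v = v' ∧ z = pt (x1, y1) ∧ z = pt (x1', y1')) := by
  have key : ∀ {u v u' v' : ℕ} {x0 y0 c x1 y1 x0' y0' c' x1' y1' : ℤ},
      ED K u v x0 y0 c x1 y1 → ED K u' v' x0' y0' c' x1' y1' →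
      (u = u' → x0 = x0' ∧ y0 = y0') ∧ (v = v' → x1 = x1' ∧ y1 = y1') := by
    intro u v u' v' x0 y0 c x1 y1 x0' y0' c' x1' y1' h h'
    obtain ⟨i, hi, h | h | h | h | h | h | h⟩ := h <;>
    obtain ⟨j, hj, h' | h' | h' | h' | h' | h' | h'⟩ := h' <;>
    exact ⟨by omega, by omega⟩
  obtain ⟨k1, k2⟩ := key h h'
  rcases lt_trichotomy c c' with hc | hc | hc
  · rcases common_of_lt h h' hc hz hz' with ⟨a, b⟩ | ⟨a, b⟩
    · obtain ⟨e1, e2⟩ := k1 a
      exact Or.inl ⟨a, b, by rw [b, e1, e2]⟩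
    · obtain ⟨e1, e2⟩ := k2 a
      exact Or.inr ⟨a, b, by rw [b, e1, e2]⟩
  · exact absurd (ED.column h h' hc) hne
  · rcases common_of_lt h' h hc hz' hz with ⟨a, b⟩ | ⟨a, b⟩
    · obtain ⟨e1, e2⟩ := k1 a.symm
      exact Or.inl ⟨a.symm, by rw [b, e1, e2], b⟩
    · obtain ⟨e1, e2⟩ := k2 a.symm
      exact Or.inr ⟨a.symm, by rw [b, e1, e2], b⟩

/-- The explicit drawing of the nested graph. -/
def nestDrawing (n : ℕ) : PolyDrawing (nestG n) where
  pos v := (px (n / 4) v.val, py (n / 4) v.val)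
  bends u v := [(col (n / 4) u.val v.val, py (n / 4) u.val + 1),
    (col (n / 4) u.val v.val, py (n / 4) v.val - 1)]
  pos_inj := by
    intro u v h
    simp only [Prod.mk.injEq] at h
    exact Fin.ext (pos_inj' h.1 h.2)
  up := by
    rintro u v ⟨hu, hv, h⟩
    have hl := (ed_of_EN hu hv h).long
    simp only [List.cons_append, List.nil_append, List.pairwise_cons, List.mem_cons,
      List.not_mem_nil, or_false, forall_eq_or_imp, forall_eq, List.Pairwise.nil, and_true,
      false_imp_iff, implies_true]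
    omega
  noncross := by
    rintro u v u' v' ⟨hu, hv, h⟩ ⟨hu', hv', h'⟩ hne z hz hz'
    have hne' : ¬ (u.val = u'.val ∧ v.val = v'.val) := by
      rintro ⟨a, b⟩
      exact hne (by rw [Fin.ext a, Fin.ext b])
    rcases common_vertex (ed_of_EN hu hv h) (ed_of_EN hu' hv' h') hne' hz hz' with
      ⟨a, b, -⟩ | ⟨a, b, -⟩
    · exact ⟨u, Or.inl rfl, Or.inl (Fin.ext a), b⟩
    · exact ⟨v, Or.inr rfl, Or.inr (Fin.ext a), b⟩
  vertex_off := by
    rintro u v x ⟨hu, hv, h⟩ hxu hxv hz
    have hE := ed_of_EN hu hv h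
    have hxu' : x.val ≠ u.val := fun e => hxu (Fin.ext e)
    have hxv' : x.val ≠ v.val := fun e => hxv (Fin.ext e)
    have ptinj : ∀ p q : ℤ × ℤ, pt p = pt q → p = q := by
      intro p q hpq
      have h1 := congrArg Complex.re hpq
      have h2 := congrArg Complex.im hpq
      simp only [pt] at h1 h2
      exact Prod.ext (by exact_mod_cast h1) (by exact_mod_cast h2)
    by_cases hx : x.val < 4 * (n / 4)
    · -- an edge at `x`
      have hex : ∃ s t : ℕ, s < 4 * (n / 4) ∧ t < 4 * (n / 4) ∧ EN s t ∧ (x.val = s ∨ x.val = t) := by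
        by_cases hx4 : x.val % 4 < 2
        · exact ⟨x.val, 4 * (x.val / 4) + 2, hx, by omega, ⟨hx4, by omega, by omega⟩, Or.inl rfl⟩
        · exact ⟨4 * (x.val / 4), x.val, by omega, hx, ⟨by omega, by omega, by omega⟩, Or.inr rfl⟩
      obtain ⟨s, t, hs, ht, hst, hx'⟩ := hex
      have hE' := ed_of_EN hs ht hst
      have hne : ¬ (u.val = s ∧ v.val = t) := by
        rintro ⟨a, b⟩
        rcases hx' with e | e
        · exact hxu' (e.trans a.symm)
        · exact hxv' (e.trans b.symm)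
      have hz' : pt (px (n / 4) x.val, py (n / 4) x.val) ∈ chainCurve
          [(px (n / 4) s, py (n / 4) s), (col (n / 4) s t, py (n / 4) s + 1),
            (col (n / 4) s t, py (n / 4) t - 1), (px (n / 4) t, py (n / 4) t)] := by
        rcases hx' with e | e
        · rw [e]; exact pt_mem_chainCurve (by simp)
        · rw [e]; exact pt_mem_chainCurve (by simp)
      rcases common_vertex hE hE' hne hz hz' with ⟨a, b, -⟩ | ⟨a, b, -⟩
      · have := ptinj _ _ b
        rw [Prod.mk.injEq] at this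
        exact hxu' (pos_inj' this.1 this.2)
      · have := ptinj _ _ b
        rw [Prod.mk.injEq] at this
        exact hxv' (pos_inj' this.1 this.2)
    · -- isolated vertices lie below everything
      obtain ⟨m, t, ht0, -, him, hm0, -⟩ := mem_chain4 hE.long hz
      have e : py (n / 4) x.val = -(n / 4 : ℕ) - 5 := by
        unfold py; rw [if_neg hx]
      have hge := py_ge hu
      simp only [pt] at him
      rw [e] at him
      have : ((-(n / 4 : ℕ) - 5 : ℤ) : ℝ) ≥ (m : ℝ) := by
        rw [him]; linarith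
      have : (-(n / 4 : ℕ) - 5 : ℤ) ≥ m := by exact_mod_cast this
      omega

theorem result_bound (n : ℕ) : (n / 4 - 2) ^ 2 ≤ Ap n := by
  classical
  -- the set is finite
  have hfinG : Finite (BipDAG n) := by
    refine Finite.of_injective (β := (Fin n → Bool) × (Fin n → Fin n → Prop))
      (fun G => (G.side, G.E)) ?_
    rintro ⟨s, e, h⟩ ⟨s', e', h'⟩ hh
    simp only [Prod.mk.injEq] at hh
    obtain ⟨rfl, rfl⟩ := hh
    rfl
  have hbdd : BddAbove {A : ℕ | ∃ G : BipDAG n, Nonempty (PolyDrawing G) ∧ A = minArea G} := by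
    apply Set.Finite.bddAbove
    apply (Set.finite_range (fun G : BipDAG n => minArea G)).subset
    rintro A ⟨G, -, rfl⟩
    exact ⟨G, rfl⟩
  have hle : minArea (nestG n) ≤ Ap n := le_csSup hbdd ⟨nestG n, ⟨nestDrawing n⟩, rfl⟩
  refine le_trans ?_ hle
  rcases lt_or_ge (n / 4) 3 with hK | hK
  · have : n / 4 - 2 = 0 := by omega
    rw [this]; simp
  · have hn : 0 < n := by omega
    unfold minArea
    apply le_csInf
    · -- some drawing fits in some box
      have hbox : ∃ M : ℕ, ∀ v, |((nestDrawing n).pos v).1| ≤ M ∧ |((nestDrawing n).pos v).2| ≤ M := by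
        have hf : (Set.range (fun v => (|((nestDrawing n).pos v).1|.toNat +
          |((nestDrawing n).pos v).2|.toNat))).Finite := Set.finite_range _
        obtain ⟨M, hM⟩ := hf.bddAbove
        refine ⟨M, fun v => ?_⟩
        have := hM ⟨v, rfl⟩
        simp only at this
        have h1 := abs_nonneg ((nestDrawing n).pos v).1
        have h2 := abs_nonneg ((nestDrawing n).pos v).2
        omega
      obtain ⟨M, hM⟩ := hbox
      -- bends: columns between -(3K+5) and 4K+5 ; crude bound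
      refine ⟨_, nestDrawing n, 2 * (M + 10 * n + 10), 2 * (M + 10 * n + 10), ?_, rfl⟩
      refine ⟨-(M + 10 * n + 10 : ℕ), -(M + 10 * n + 10 : ℕ), ?_, ?_⟩
      · intro v
        obtain ⟨h1, h2⟩ := hM v
        rw [abs_le] at h1 h2
        push_cast
        omega
      · rintro u v ⟨hu, hv, h⟩ p hp
        have h1 := (hM u).2
        have h2 := (hM v).2
        rw [abs_le] at h1 h2
        have hc : |col (n / 4) u.val v.val| ≤ 10 * n := by
          rw [abs_le]
          unfold col
          constructor <;> split_ifs <;> omega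
        rw [abs_le] at hc
        simp only [nestDrawing, List.mem_cons, List.not_mem_nil, or_false] at hp h1 h2
        rcases hp with rfl | rfl
        · push_cast
          refine ⟨?_, ?_, ?_, ?_⟩ <;> omega
        · push_cast
          refine ⟨?_, ?_, ?_, ?_⟩ <;> omega
    · rintro A ⟨D, W, H, hfit, rfl⟩
      obtain ⟨h1, h2⟩ := lower_bound hn D hK W H hfit
      rw [sq]
      exact Nat.mul_le_mul h1 h2

end H555R3
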